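import Mathlib
import Pool.Agent.H33.BentSum

set_option autoImplicit false

namespace Pool.Agent.Results.MP_5641ff_co.AlmostNoXorOfBent

open Finset

/-- Boolean functions in `n` variables. -/
abbrev BF (n : ℕ) : Type := (Fin n → ZMod 2) → ZMod 2

/-- The algebraic degree of `f` is at most `d`: all monomials of its algebraic normal form
`f x = sum over S of a_S * prod over i in S of x_i` have at most `d` variables. -/
def DegreeLE {n : ℕ} (f : BF n) (d : ℕ) : Prop :=
  ∃ a : Finset (Fin n) → ZMod 2,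
    (∀ S, a S ≠ 0 → S.card ≤ d) ∧ ∀ x, f x = ∑ S, a S * ∏ i ∈ S, x i

/-- The Walsh-Hadamard transform: the sum over `x` of `(-1)^(f x + u.x)`. -/
def walsh {n : ℕ} (f : BF n) (u : Fin n → ZMod 2) : ℤ :=
  ∑ x : Fin n → ZMod 2, if f x + ∑ i, u i * x i = 0 then 1 else -1

/-- `f` is bent (used for even `n` only). -/
def Bent {n : ℕ} (f : BF n) : Prop := ∀ u, |walsh f u| = 2 ^ (n / 2)

/-- `f` is the XOR of `t` bent functions. -/
def XorOfBent {n : ℕ} (t : ℕ) (f : BF n) : Prop :=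
  ∃ g : Fin t → BF n, (∀ i, Bent (g i)) ∧ ∀ x, f x = ∑ i, g i x

private lemma sgn_eq (z : ZMod 2) : (-1 : ℤ) ^ z.val = if z = 0 then 1 else -1 := by
  revert z
  decide

private lemma bent_isB {m : ℕ} {f : BF (2 * m)} (hf : Bent f) :
    ∀ a : Fin (2 * m) → ZMod 2,
      (∑ x : Fin (2 * m) → ZMod 2, (-1 : ℤ) ^ (f x + ∑ i, a i * x i).val) ^ 2 = 2 ^ (2 * m) := by
  intro a
  have h := hf a
  have h1 : (∑ x : Fin (2 * m) → ZMod 2, (-1 : ℤ) ^ (f x + ∑ i, a i * x i).val) = walsh f a :=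
    Finset.sum_congr rfl fun x _ => sgn_eq _
  rw [h1, ← sq_abs, h, ← pow_mul]
  congr 1
  omega

private lemma eval_low {n m : ℕ} (c : {S : Finset (Fin n) // S.card ≤ m} → ZMod 2)
    (x : Fin n → ZMod 2) :
    MvPolynomial.eval x (Pool.Agent.H33.Bent.lowPoly c) = ∑ S, c S * ∏ i ∈ S.1, x i := by
  unfold Pool.Agent.H33.Bent.lowPoly
  rw [map_sum]
  refine Finset.sum_congr rfl fun S _ => ?_
  rw [MvPolynomial.eval_monomial, Finsupp.prod_fintype _ _ (fun i => pow_zero _),
    ← Finset.prod_subset (Finset.subset_univ S.1)]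
  · congr 1
    refine Finset.prod_congr rfl fun i hi => ?_
    rw [Pool.Agent.H33.Bent.expo_apply, if_pos hi, pow_one]
  · intro i _ hi
    rw [Pool.Agent.H33.Bent.expo_apply, if_neg hi, pow_zero]

private lemma degree_low {n m : ℕ} (c : {S : Finset (Fin n) // S.card ≤ m} → ZMod 2) :
    DegreeLE (fun x => MvPolynomial.eval x (Pool.Agent.H33.Bent.lowPoly c)) m := by
  classical
  refine ⟨fun S => if h : S.card ≤ m then c ⟨S, h⟩ else 0, ?_, ?_⟩
  · intro S hS
    by_contra h
    exact hS (dif_neg h)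
  · intro x
    show MvPolynomial.eval x (Pool.Agent.H33.Bent.lowPoly c) =
      ∑ S : Finset (Fin n), (if h : S.card ≤ m then c ⟨S, h⟩ else 0) * ∏ i ∈ S, x i
    rw [eval_low]
    have h1 : ∀ S : Finset (Fin n), (if h : S.card ≤ m then c ⟨S, h⟩ else 0) * ∏ i ∈ S, x i =
        if h : S.card ≤ m then c ⟨S, h⟩ * ∏ i ∈ S, x i else 0 := by
      intro S
      split_ifs <;> simp
    rw [Finset.sum_congr rfl fun S _ => h1 S]
    rw [Finset.sum_dite]
    rw [Finset.sum_const_zero, add_zero]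
    refine Finset.sum_bij' (fun S _ => ⟨S.1, Finset.mem_filter.2 ⟨Finset.mem_univ _, S.2⟩⟩)
      (fun S _ => ⟨S.1, (Finset.mem_filter.1 S.2).2⟩) ?_ ?_ ?_ ?_ ?_
    · intro S _
      exact Finset.mem_attach _ _
    · intro S _
      exact Finset.mem_univ _
    · intro S _
      rfl
    · intro S _
      rfl
    · intro S _
      rfl

private lemma card_degree (m : ℕ) :
    (2 : ℝ) ^ ((1 / 2 : ℝ) * 4 ^ m) ≤ Nat.card {f : BF (2 * m) // DegreeLE f m} := by
  classical
  have hinj : Function.Injective (fun c : {S : Finset (Fin (2 * m)) // S.card ≤ m} → ZMod 2 =>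
      (⟨fun x => MvPolynomial.eval x (Pool.Agent.H33.Bent.lowPoly c), degree_low c⟩ :
        {f : BF (2 * m) // DegreeLE f m})) := by
    intro c c' h
    apply Pool.Agent.H33.Bent.lowPoly_eval_inj
    intro x
    exact congrFun (congrArg Subtype.val h) x
  have h1 := Nat.card_le_card_of_injective _ hinj
  rw [Nat.card_eq_fintype_card, Fintype.card_fun, ZMod.card] at h1
  have h2 := Pool.Agent.H33.Bent.card_low m
  have h3 : ((2 : ℝ) ^ (Fintype.card {S : Finset (Fin (2 * m)) // S.card ≤ m})) ≤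
      Nat.card {f : BF (2 * m) // DegreeLE f m} := by exact_mod_cast h1
  refine le_trans ?_ h3
  rw [← Real.rpow_natCast 2 (Fintype.card {S : Finset (Fin (2 * m)) // S.card ≤ m})]
  apply Real.rpow_le_rpow_of_exponent_le (by norm_num)
  have h4 : (4 : ℝ) ^ m ≤ 2 * (Fintype.card {S : Finset (Fin (2 * m)) // S.card ≤ m} : ℝ) := by
    exact_mod_cast h2
  linarith

private lemma card_xor (t : ℕ) {ε : ℝ} (hε : 0 < ε) : ∃ N : ℕ, ∀ m ≥ N,
    (Nat.card {f : BF (2 * m) // XorOfBent t f} : ℝ) ≤ (2 : ℝ) ^ (ε * 4 ^ m) := by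
  classical
  have hl : 0 < Real.log 2 := Real.log_pos (by norm_num)
  obtain ⟨N, hN⟩ := Pool.Agent.H33.Bent.card_bent_le
    (ε := ε * Real.log 2 / (t + 1)) (by positivity)
  refine ⟨N, fun m hm => ?_⟩
  have hB := hN m hm
  set B := {f : (Fin (2 * m) → ZMod 2) → ZMod 2 //
      ∀ a : Fin (2 * m) → ZMod 2,
        (∑ x : Fin (2 * m) → ZMod 2,
          (-1 : ℤ) ^ (f x + ∑ i, a i * x i).val) ^ 2 = 2 ^ (2 * m)} with hBdef
  have H : ∀ f : {f : BF (2 * m) // XorOfBent t f}, ∃ g : Fin t → B,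
      ∀ x, f.1 x = ∑ i, (g i).1 x := by
    intro f
    obtain ⟨g, hg, hx⟩ := f.2
    exact ⟨fun i => ⟨g i, bent_isB (hg i)⟩, hx⟩
  choose Φ hΦ using H
  have hinj : Function.Injective Φ := by
    intro f f' h
    apply Subtype.ext
    funext x
    rw [hΦ f x, hΦ f' x, h]
  have h1 := Nat.card_le_card_of_injective Φ hinj
  rw [Nat.card_fun, Nat.card_fin] at h1
  have h2 : (Nat.card {f : BF (2 * m) // XorOfBent t f} : ℝ) ≤ (Nat.card B : ℝ) ^ t := by
    exact_mod_cast h1
  refine h2.trans ((pow_le_pow_left₀ (Nat.cast_nonneg _) hB t).trans ?_)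
  rw [← Real.exp_nat_mul, Real.rpow_def_of_pos (by norm_num)]
  apply Real.exp_le_exp.2
  have h3 : (0 : ℝ) < 4 ^ m := by positivity
  have h4 : (t : ℝ) / (t + 1) ≤ 1 := by
    rw [div_le_one (by positivity)]
    linarith
  calc (t : ℝ) * (ε * Real.log 2 / (t + 1) * 4 ^ m)
      = (t / (t + 1)) * (Real.log 2 * (ε * 4 ^ m)) := by ring
    _ ≤ 1 * (Real.log 2 * (ε * 4 ^ m)) := by
        apply mul_le_mul_of_nonneg_right h4
        positivity
    _ = Real.log 2 * (ε * 4 ^ m) := one_mul _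

/-- For all `t` and `ε > 0` and every large even `n`: among the Boolean functions of algebraic
degree at most `n / 2` the proportion of those that are XORs of `t` bent functions is at most
`2 ^ (-(1/2 - ε) 2^n)`; and some function of degree at most `n / 2` is not the XOR of two bent
functions. -/
theorem result (t : ℕ) (ε : ℝ) (hε : 0 < ε) :
    ∃ N : ℕ, ∀ n : ℕ, N ≤ n → Even n →
      (Nat.card {f : BF n // DegreeLE f (n / 2) ∧ XorOfBent t f} : ℝ) ≤
          (2 : ℝ) ^ (-((1 / 2 - ε) * 2 ^ n)) * Nat.card {f : BF n // DegreeLE f (n / 2)} ∧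
        ∃ f : BF n, DegreeLE f (n / 2) ∧
          ∀ g h : BF n, Bent g → Bent h → ∃ x, f x ≠ g x + h x := by
  classical
  obtain ⟨N1, hN1⟩ := card_xor t hε
  obtain ⟨N2, hN2⟩ := card_xor 2 (ε := 1 / 4) (by norm_num)
  refine ⟨2 * (N1 + N2), fun n hn he => ?_⟩
  obtain ⟨m, rfl⟩ : ∃ m, n = 2 * m := ⟨n / 2, (Nat.two_mul_div_two_of_even he).symm⟩
  have hm : 2 * m / 2 = m := by omega
  rw [hm]
  have hD := card_degree m
  have h4 : (2 : ℝ) ^ (2 * m) = 4 ^ m := by
    rw [pow_mul]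
    norm_num
  have hfin : Finite {f : BF (2 * m) // XorOfBent t f} := inferInstance
  constructor
  · have h1 := hN1 m (by omega)
    have h2 : Nat.card {f : BF (2 * m) // DegreeLE f m ∧ XorOfBent t f} ≤
        Nat.card {f : BF (2 * m) // XorOfBent t f} :=
      Nat.card_le_card_of_injective (fun f => ⟨f.1, f.2.2⟩) fun f f' h =>
        Subtype.ext (Subtype.mk.inj h)
    have h3 : (Nat.card {f : BF (2 * m) // DegreeLE f m ∧ XorOfBent t f} : ℝ) ≤
        Nat.card {f : BF (2 * m) // XorOfBent t f} := by exact_mod_cast h2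
    refine h3.trans (h1.trans ?_)
    calc (2 : ℝ) ^ (ε * 4 ^ m)
        = (2 : ℝ) ^ (-((1 / 2 - ε) * 2 ^ (2 * m))) * (2 : ℝ) ^ ((1 / 2 : ℝ) * 4 ^ m) := by
          rw [← Real.rpow_add (by norm_num), h4]
          congr 1
          ring
      _ ≤ _ := mul_le_mul_of_nonneg_left hD (by positivity)
  · by_contra hcon
    push Not at hcon
    have h1 := hN2 m (by omega)
    have hinj : Nat.card {f : BF (2 * m) // DegreeLE f m} ≤
        Nat.card {f : BF (2 * m) // XorOfBent 2 f} := by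
      refine Nat.card_le_card_of_injective (fun f => ⟨f.1, ?_⟩) fun f f' h =>
        Subtype.ext (Subtype.mk.inj h)
      obtain ⟨g, h, hg, hh, hx⟩ := hcon f.1 f.2
      refine ⟨![g, h], ?_, ?_⟩
      · intro i
        fin_cases i
        · exact hg
        · exact hh
      · intro x
        rw [Fin.sum_univ_two]
        exact hx x
    have h2 : (Nat.card {f : BF (2 * m) // DegreeLE f m} : ℝ) ≤
        Nat.card {f : BF (2 * m) // XorOfBent 2 f} := by exact_mod_cast hinj
    have h3 := hD.trans (h2.trans h1)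
    have h5 := (Real.rpow_le_rpow_left_iff (by norm_num : (1 : ℝ) < 2)).1 h3
    have h6 : (0 : ℝ) < 4 ^ m := by positivity
    linarith

end Pool.Agent.Results.MP_5641ff_co.AlmostNoXorOfBent
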